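import Mathlib
import Pool.Agent.Lib.Pec23a5.Swindle

set_option autoImplicit false

open scoped ENNReal
open Finset Pool.Agent.Lib.Pec23a5

namespace Pool.Agent.Results.MP_ec23a5_an.DualNotQuasiGreedy

/-- Real `ℓ_p`. -/
abbrev ell (p : ℝ≥0∞) := lp (fun _ : ℕ => ℝ) p

/-- The pairing `⟨f, y⟩ = ∑ f_i y_i` by which `ℓ_q` is the dual of `ℓ_p`. -/
noncomputable def pairing {q p : ℝ≥0∞} (f : ell q) (y : ell p) : ℝ := ∑' i, f i * y i

/-- `x` is a basis of `ℓ_p` with biorthogonal functionals `x'` in `ℓ_q = (ℓ_p)^*`: biorthogonality,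
dense span, `sup ‖x_n‖ ‖x'_n‖ < ∞` and `0 < inf ‖x_n‖ ≤ sup ‖x_n‖ < ∞`. -/
def IsBasis {p q : ℝ≥0∞} [Fact (1 ≤ p)] [Fact (1 ≤ q)] (x : ℕ → ell p) (x' : ℕ → ell q) : Prop :=
  (∀ k n, pairing (x' k) (x n) = if k = n then 1 else 0) ∧
  closure (Submodule.span ℝ (Set.range x) : Set (ell p)) = Set.univ ∧
  (∃ M : ℝ, ∀ n, ‖x n‖ * ‖x' n‖ ≤ M) ∧
  (∃ a b : ℝ, 0 < a ∧ ∀ n, a ≤ ‖x n‖ ∧ ‖x n‖ ≤ b)

/-- `A` is a greedy set for the coefficient sequence `c`. -/
def IsGreedySet (c : ℕ → ℝ) (A : Finset ℕ) : Prop := ∀ n ∈ A, ∀ k ∉ A, |c k| ≤ |c n|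

/-- Quasi-greediness in `ℓ_p` of the system `x` with coefficients `y ↦ ⟨x'_n, y⟩`. -/
def IsQuasiGreedy {p q : ℝ≥0∞} [Fact (1 ≤ p)] [Fact (1 ≤ q)] (x : ℕ → ell p) (x' : ℕ → ell q) :
    Prop :=
  ∃ C : ℝ, ∀ (y : ell p) (A : Finset ℕ), IsGreedySet (fun n => pairing (x' n) y) A →
    ‖∑ n ∈ A, pairing (x' n) y • x n‖ ≤ C * ‖y‖

instance : Fact ((1 : ℝ≥0∞) ≤ 4) := ⟨by norm_num⟩

instance : Fact (1 ≤ ENNReal.ofReal (4 / 3)) := ⟨by
  rw [ENNReal.one_le_ofReal]
  norm_num⟩

section Pairing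

variable {p q : ℝ≥0∞}

lemma pairing_comm (f : ell q) (y : ell p) : pairing f y = pairing y f := by
  unfold pairing
  exact tsum_congr fun i => mul_comm _ _

lemma summable_pairing (hpq : p.toReal.HolderConjugate q.toReal) (f : ell q) (y : ell p) :
    Summable fun i => f i * y i := by
  have h := (lp.tsum_mul_le_mul_norm hpq.symm f y).1
  refine Summable.of_norm (h.congr fun i => ?_)
  rw [norm_mul]

lemma abs_pairing_le (hpq : p.toReal.HolderConjugate q.toReal) (f : ell q) (y : ell p) :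
    |pairing f y| ≤ ‖f‖ * ‖y‖ := by
  obtain ⟨h1, h2⟩ := lp.tsum_mul_le_mul_norm hpq.symm f y
  refine le_trans ?_ h2
  have h3 : Summable fun i => ‖f i * y i‖ := h1.congr fun i => by rw [norm_mul]
  have h4 := norm_tsum_le_tsum_norm h3
  rw [Real.norm_eq_abs] at h4
  refine h4.trans (le_of_eq (tsum_congr fun i => norm_mul _ _))

end Pairing

section Riesz

variable {p q : ℝ≥0∞} [Fact (1 ≤ p)] [Fact (1 ≤ q)]

/-- `ℓ_q` as functionals on `ℓ_p`. -/
noncomputable def pairL (hpq : p.toReal.HolderConjugate q.toReal) (f : ell q) : ell p →L[ℝ] ℝ :=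
  LinearMap.mkContinuous
    { toFun := fun y => pairing f y
      map_add' := fun y z => by
        unfold pairing
        rw [← (summable_pairing hpq f y).tsum_add (summable_pairing hpq f z)]
        refine tsum_congr fun i => ?_
        rw [lp.coeFn_add, Pi.add_apply, mul_add]
      map_smul' := fun c y => by
        unfold pairing
        rw [RingHom.id_apply, smul_eq_mul, ← tsum_mul_left]
        refine tsum_congr fun i => ?_
        rw [lp.coeFn_smul, Pi.smul_apply, smul_eq_mul]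
        ring } ‖f‖
    (fun y => by
      rw [Real.norm_eq_abs]
      exact abs_pairing_le hpq f y)

lemma pairL_apply (hpq : p.toReal.HolderConjugate q.toReal) (f : ell q) (y : ell p) :
    pairL hpq f y = pairing f y := rfl

lemma norm_pairL_le (hpq : p.toReal.HolderConjugate q.toReal) (f : ell q) :
    ‖(pairL hpq f : ell p →L[ℝ] ℝ)‖ ≤ ‖f‖ :=
  LinearMap.mkContinuous_norm_le _ (norm_nonneg _) _

lemma pairing_sum_smul (hpq : p.toReal.HolderConjugate q.toReal) (A : Finset ℕ) (c : ℕ → ℝ)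
    (f : ℕ → ell q) (y : ell p) :
    pairing (∑ n ∈ A, c n • f n) y = ∑ n ∈ A, c n * pairing (f n) y := by
  classical
  induction A using Finset.induction_on with
  | empty =>
    unfold pairing
    simp
  | insert a s ha ih =>
    rw [Finset.sum_insert ha, Finset.sum_insert ha, ← ih]
    unfold pairing
    rw [← tsum_mul_left, ← (((summable_pairing hpq (f a) y).mul_left (c a)).tsum_add
      (summable_pairing hpq (∑ n ∈ s, c n • f n) y))]
    refine tsum_congr fun i => ?_
    rw [lp.coeFn_add, Pi.add_apply, lp.coeFn_smul, Pi.smul_apply, smul_eq_mul]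
    ring

/-- Riesz representation of the functionals on `ℓ_p`. -/
lemma riesz (hpq : p.toReal.HolderConjugate q.toReal) (hp : p ≠ ⊤) (φ : ell p →L[ℝ] ℝ) :
    ∃ g : ell q, (∀ y, φ y = pairing g y) ∧ ‖g‖ = ‖φ‖ := by
  have hp0 : 0 < p.toReal := hpq.pos
  have hq0 : 0 < q.toReal := hpq.symm.pos
  set g : ℕ → ℝ := fun i => φ (lp.single p i (1 : ℝ)) with hg
  have hsingle : ∀ (i : ℕ) (c : ℝ), φ (lp.single p i c) = c * g i := by
    intro i c
    have h1 : lp.single (E := fun _ : ℕ => ℝ) p i c = c • lp.single p i (1 : ℝ) := by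
      rw [← lp.single_smul, smul_eq_mul, mul_one]
    rw [h1, map_smul, smul_eq_mul]
  have key : ∀ s : Finset ℕ, ∑ i ∈ s, ‖g i‖ ^ q.toReal ≤ ‖φ‖ ^ q.toReal := by
    intro s
    set S : ℝ := ∑ i ∈ s, ‖g i‖ ^ q.toReal with hS
    have hS0 : 0 ≤ S := Finset.sum_nonneg fun i _ => by positivity
    rcases hS0.eq_or_lt with hS1 | hS1
    · rw [← hS1]; positivity
    -- the norming vector
    set v : ℕ → ℝ := fun i => SignType.sign (g i) * |g i| ^ (q.toReal - 1) with hv
    set V : ell p := ∑ i ∈ s, lp.single p i (v i) with hV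
    have h1 : φ V = S := by
      rw [hV, map_sum, hS]
      refine Finset.sum_congr rfl fun i _ => ?_
      rw [hsingle, hv]
      simp only
      rcases eq_or_ne (g i) 0 with h | h
      · rw [h]
        simp [Real.zero_rpow hq0.ne']
      · have h2 : (0 : ℝ) < |g i| := abs_pos.2 h
        rw [mul_assoc, mul_comm, mul_assoc, self_mul_sign, Real.norm_eq_abs]
        rw [← Real.rpow_add_one h2.ne', sub_add_cancel]
    have h2 : ‖V‖ ^ p.toReal = S := by
      rw [hV, lp.norm_sum_single hp0, hS]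
      refine Finset.sum_congr rfl fun i _ => ?_
      rw [hv]
      simp only
      rcases eq_or_ne (g i) 0 with h | h
      · rw [h]
        simp [Real.zero_rpow hq0.ne', Real.zero_rpow hp0.ne']
      · have h2 : (0 : ℝ) < |g i| := abs_pos.2 h
        have h3 : ‖((SignType.sign (g i) : SignType) : ℝ)‖ = 1 := by
          rcases h.lt_or_gt with h4 | h4
          · rw [sign_neg h4]; simp
          · rw [sign_pos h4]; simp
        rw [norm_mul, h3, one_mul, Real.norm_eq_abs, Real.norm_eq_abs,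
          abs_of_pos (Real.rpow_pos_of_pos h2 _), ← Real.rpow_mul h2.le]
        congr 1
        exact hpq.symm.sub_one_mul_conj
    have h3 : S ≤ ‖φ‖ * ‖V‖ := by
      have h4 := φ.le_opNorm V
      rw [h1, Real.norm_of_nonneg hS0] at h4
      exact h4
    have h4 : ‖V‖ = S ^ (1 / p.toReal) := by
      rw [← h2, ← Real.rpow_mul (norm_nonneg _), mul_one_div_cancel hp0.ne', Real.rpow_one]
    have h5 : S ^ (1 / q.toReal) ≤ ‖φ‖ := by
      have h6 : S = S ^ (1 / q.toReal) * S ^ (1 / p.toReal) := by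
        rw [← Real.rpow_add hS1]
        have h7 : 1 / q.toReal + 1 / p.toReal = 1 := by
          rw [one_div, one_div]
          exact hpq.symm.inv_add_inv_eq_one
        rw [h7, Real.rpow_one]
      have h7 : S ^ (1 / q.toReal) * S ^ (1 / p.toReal) ≤ ‖φ‖ * S ^ (1 / p.toReal) := by
        rw [← h6, ← h4]
        exact h3
      exact le_of_mul_le_mul_right h7 (Real.rpow_pos_of_pos hS1 _)
    calc S = (S ^ (1 / q.toReal)) ^ q.toReal := by
          rw [← Real.rpow_mul hS0, one_div_mul_cancel hq0.ne', Real.rpow_one]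
      _ ≤ ‖φ‖ ^ q.toReal := Real.rpow_le_rpow (by positivity) h5 hq0.le
  have hmem : Memℓp g q := memℓp_gen' key
  let G : ell q := ⟨g, hmem⟩
  have hG : ∀ y, φ y = pairing G y := by
    intro y
    have h1 := (lp.hasSum_single hp y).mapL φ
    rw [← h1.tsum_eq]
    unfold pairing
    exact tsum_congr fun i => (hsingle i (y i)).trans (mul_comm _ _)
  refine ⟨G, hG, le_antisymm ?_ ?_⟩
  · exact lp.norm_le_of_forall_sum_le hq0 (norm_nonneg _) key
  · refine φ.opNorm_le_bound (norm_nonneg _) fun y => ?_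
    rw [hG, Real.norm_eq_abs]
    exact abs_pairing_le hpq G y

/-- The functionals of a quasi-greedy basis are total. -/
lemma total (hpq : p.toReal.HolderConjugate q.toReal) {x : ℕ → ell p} {x' : ℕ → ell q}
    (hb : IsBasis x x') (hqg : IsQuasiGreedy x x') {y : ell p}
    (hy : ∀ n, pairing (x' n) y = 0) : y = 0 := by
  classical
  by_contra hne
  obtain ⟨C, hC⟩ := hqg
  have hy0 : 0 < ‖y‖ := norm_pos_iff.2 hne
  have hd : y ∈ closure (Submodule.span ℝ (Set.range x) : Set (ell p)) := by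
    rw [hb.2.1]; trivial
  obtain ⟨z, hz, hyz⟩ := Metric.mem_closure_iff.1 hd (‖y‖ / (2 * (1 + |C|))) (by positivity)
  obtain ⟨a, ha⟩ := (Finsupp.mem_span_range_iff_exists_finsupp).1 hz
  have hz' : z = ∑ n ∈ a.support, a n • x n := ha.symm
  have hcoef : ∀ k, pairing (x' k) (z - y) = a k := by
    intro k
    rw [← pairL_apply hpq, map_sub, pairL_apply, pairL_apply, hy, sub_zero, hz',
      ← pairL_apply hpq, map_sum]
    have h1 : ∀ n ∈ a.support, pairL hpq (x' k) (a n • x n) = if k = n then a n else 0 := by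
      intro n _
      rw [map_smul, pairL_apply, hb.1, smul_eq_mul]
      split_ifs <;> simp
    rw [Finset.sum_congr rfl h1, Finset.sum_ite_eq]
    split_ifs with h
    · rfl
    · exact (Finsupp.notMem_support_iff.1 h).symm
  have h2 := hC (z - y) a.support (by
    intro n _ k hk
    simp only [hcoef]
    rw [Finsupp.notMem_support_iff.1 hk, abs_zero]
    exact abs_nonneg _)
  simp only [hcoef] at h2
  rw [← hz'] at h2
  rw [dist_eq_norm] at hyz
  have h3 : ‖y‖ ≤ ‖y - z‖ + ‖z‖ := by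
    have := norm_add_le (y - z) z
    rwa [sub_add_cancel] at this
  have h4 : C * ‖z - y‖ ≤ |C| * ‖y - z‖ := by
    rw [norm_sub_rev]
    exact mul_le_mul_of_nonneg_right (le_abs_self C) (norm_nonneg _)
  have h5 : ‖y‖ ≤ (1 + |C|) * ‖y - z‖ := by linarith
  have h6 : (1 + |C|) * ‖y - z‖ < (1 + |C|) * (‖y‖ / (2 * (1 + |C|))) :=
    mul_lt_mul_of_pos_left hyz (by positivity)
  have h7 : (1 + |C|) * (‖y‖ / (2 * (1 + |C|))) = ‖y‖ / 2 := by
    field_simp
  linarith

/-- The dual system of a quasi-greedy basis is a basis of the dual. -/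
lemma isBasis_dual (hpq : p.toReal.HolderConjugate q.toReal) (hq : q ≠ ⊤) {x : ℕ → ell p}
    {x' : ℕ → ell q} (hb : IsBasis x x') (hqg : IsQuasiGreedy x x')
    (hx' : ∃ a b : ℝ, 0 < a ∧ ∀ n, a ≤ ‖x' n‖ ∧ ‖x' n‖ ≤ b) : IsBasis x' x := by
  refine ⟨fun k n => ?_, ?_, ?_, hx'⟩
  · rw [pairing_comm, hb.1]
    simp only [eq_comm]
  · by_contra hne
    obtain ⟨z, hz⟩ : ∃ z, z ∉ closure (Submodule.span ℝ (Set.range x') : Set (ell q)) := by
      by_contra hcon
      push Not at hcon
      exact hne (Set.eq_univ_of_forall hcon)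
    obtain ⟨φ, u, h1, h2⟩ := geometric_hahn_banach_closed_point
      (Submodule.convex (Submodule.span ℝ (Set.range x'))).closure isClosed_closure hz
    obtain ⟨y, hy, -⟩ := riesz hpq.symm hq φ
    have h3 : ∀ n, pairing (x' n) y = 0 := by
      intro n
      by_contra hn
      rw [pairing_comm, ← hy] at hn
      have h4 : (u / φ (x' n)) • x' n ∈
          closure (Submodule.span ℝ (Set.range x') : Set (ell q)) :=
        subset_closure (Submodule.smul_mem _ _ (Submodule.subset_span ⟨n, rfl⟩))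
      have h5 := h1 _ h4
      rw [map_smul, smul_eq_mul, div_mul_cancel₀ _ hn] at h5
      exact lt_irrefl _ h5
    have h4 : y = 0 := total hpq hb hqg h3
    have h5 := h1 0 (subset_closure (Submodule.zero_mem _))
    rw [map_zero] at h5
    have h6 : φ z = 0 := by
      rw [hy, h4, pairing_comm]
      unfold pairing
      simp
    rw [h6] at h2
    exact lt_irrefl _ (h5.trans h2)
  · obtain ⟨M, hM⟩ := hb.2.2.1
    exact ⟨M, fun n => by rw [mul_comm]; exact hM n⟩

end Riesz

lemma exists_dual_not_quasiGreedy : ∃ (x : ℕ → ell p43) (x' : ℕ → ell 4),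
    IsBasis x x' ∧ IsQuasiGreedy x x' ∧ IsBasis x' x ∧ ¬ IsQuasiGreedy x' x := by
  have hpq : p43.toReal.HolderConjugate (4 : ℝ≥0∞).toReal := by
    rw [p43_toReal, Real.holderConjugate_iff]
    norm_num
  obtain ⟨x, f, h1, h2, ⟨M, h3⟩, ⟨C, h4⟩, h5⟩ := main
  have hex := fun n => riesz hpq p43_ne_top (f n)
  choose x' hx' hnorm using hex
  have hM0 : 0 < M := by
    have h6 := (h3 0).1
    have h7 : x 0 ≠ 0 := by
      intro h
      have := h1 0 0
      rw [h, map_zero, if_pos rfl] at this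
      exact zero_ne_one this
    exact (norm_pos_iff.2 h7).trans_le h6
  have hlow : ∀ n, 1 ≤ ‖x n‖ * ‖x' n‖ := by
    intro n
    have h6 := (f n).le_opNorm (x n)
    rw [h1, if_pos rfl, norm_one, ← hnorm] at h6
    linarith
  have hx'M : ∀ n, ‖x' n‖ ≤ M := fun n => by rw [hnorm]; exact (h3 n).2
  have hb : IsBasis x x' := by
    refine ⟨fun k n => ?_, h2.closure_eq, ⟨M * M, fun n => ?_⟩, ⟨1 / M, M, by positivity,
      fun n => ⟨?_, (h3 n).1⟩⟩⟩
    · rw [← hx', h1]
    · exact mul_le_mul (h3 n).1 (hx'M n) (norm_nonneg _) hM0.le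
    · rw [div_le_iff₀ hM0]
      exact (hlow n).trans (mul_le_mul_of_nonneg_left (hx'M n) (norm_nonneg _))
  have hqg : IsQuasiGreedy x x' := by
    refine ⟨C, fun y A hA => ?_⟩
    simp only [← hx'] at hA ⊢
    exact h4 y A hA
  refine ⟨x, x', hb, hqg, ?_, ?_⟩
  · refine isBasis_dual hpq (by norm_num) hb hqg ⟨1 / M, M, by positivity, fun n =>
      ⟨?_, hx'M n⟩⟩
    rw [div_le_iff₀ hM0, mul_comm]
    exact (hlow n).trans (mul_le_mul_of_nonneg_right (h3 n).1 (norm_nonneg _))
  · rintro ⟨D, hD⟩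
    refine h5 ⟨D, fun g A hA => ?_⟩
    obtain ⟨G, hG, hGn⟩ := riesz hpq p43_ne_top g
    have hc : ∀ n, pairing (x n) G = g (x n) := fun n => by rw [pairing_comm, hG]
    have h6 := hD G A (by
      intro n hn k hk
      simp only [hc]
      exact hA n hn k hk)
    simp only [hc] at h6
    rw [← hGn]
    refine le_trans ?_ h6
    have h7 : ∑ n ∈ A, g (x n) • f n = pairL hpq (∑ n ∈ A, g (x n) • x' n) := by
      refine ContinuousLinearMap.ext fun y => ?_
      rw [_root_.sum_apply, pairL_apply, pairing_sum_smul hpq]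
      refine Finset.sum_congr rfl fun n _ => ?_
      rw [_root_.smul_apply, smul_eq_mul, hx']
    rw [h7]
    exact norm_pairL_le hpq _

/-- There is a quasi-greedy basis of real `ℓ_{4/3}` whose dual basis is a basis of `ℓ_4` that is
not quasi-greedy. -/
theorem result : ∃ (x : ℕ → ell (ENNReal.ofReal (4 / 3))) (x' : ℕ → ell 4),
    IsBasis x x' ∧ IsQuasiGreedy x x' ∧ IsBasis x' x ∧ ¬ IsQuasiGreedy x' x :=
  exists_dual_not_quasiGreedy

end Pool.Agent.Results.MP_ec23a5_an.DualNotQuasiGreedy
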